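import Pool.Agent.Lib_MP_c588fa_ins.Main

/-!
# Closed ideals of `L¹(w, ℝ⁺)` for log-concave radical weights

For every positive `w` on `[0,∞)` with `log w` concave and `log w(x)/x → -∞`, a closed linear
subspace of `L¹(w, ℝ⁺)` is an ideal if and only if it is invariant under right translations, if
and only if it is standard.  In particular there is no non-standard closed ideal.
-/

set_option autoImplicit false
open MeasureTheory Filter

namespace Pool.Agent.Results.MP_c588fa_an.ClosedIdeals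

/-- `f` belongs to `L¹(w, ℝ⁺)`: the function `f w` is integrable on `[0,∞)`.  Functions are
defined on `ℝ`, but only their values on `[0,∞)` matter. -/
def InL1 (w : ℝ → ℝ) (f : ℝ → ℂ) : Prop :=
  IntegrableOn (fun x => f x * (w x : ℂ)) (Set.Ici 0)

/-- The linear space `V` of functions is a closed subspace of `L¹(w, ℝ⁺)`: it consists of elements
of `L¹(w, ℝ⁺)` and contains every `f` in `L¹(w, ℝ⁺)` to which some sequence of elements of `V`
converges in the norm `∫_{[0,∞)} |f| w`.  (Constant sequences: `V` does not change if functions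
are modified on a null set or on `(-∞,0)`, that is, `V` is a set of classes.) -/
def IsClosedSubspace (w : ℝ → ℝ) (V : Submodule ℂ (ℝ → ℂ)) : Prop :=
  (∀ f ∈ V, InL1 w f) ∧
    ∀ (u : ℕ → ℝ → ℂ) (f : ℝ → ℂ), (∀ n, u n ∈ V) → InL1 w f →
      Tendsto (fun n => ∫ x in Set.Ici (0 : ℝ), ‖u n x - f x‖ * w x) atTop (nhds 0) → f ∈ V

/-- `V` is an ideal: it contains the convolution `x ↦ ∫₀ˣ f(x-t) g(t) dt` of every `f ∈ V` and
every `g` in `L¹(w, ℝ⁺)`. -/
def IsIdeal (w : ℝ → ℝ) (V : Submodule ℂ (ℝ → ℂ)) : Prop :=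
  ∀ f ∈ V, ∀ g : ℝ → ℂ, InL1 w g → (fun x => ∫ t in (0 : ℝ)..x, f (x - t) * g t) ∈ V

/-- `V` is invariant under all right translations `T_a f(x) = f(x-a)`, `a ≥ 0`, where `f` is
extended by `0` to `(-∞,0)`. -/
def IsTranslationInvariant (V : Submodule ℂ (ℝ → ℂ)) : Prop :=
  ∀ a : ℝ, 0 ≤ a → ∀ f ∈ V, (fun x => if a ≤ x then f (x - a) else 0) ∈ V

/-- `V` is standard: either all its elements vanish almost everywhere on `[0,∞)`, or, for some
`a ≥ 0`, it consists of all elements of `L¹(w, ℝ⁺)` which vanish almost everywhere on `[0,a)`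
(for `a = 0` this is the whole of `L¹(w, ℝ⁺)`). -/
def IsStandard (w : ℝ → ℝ) (V : Submodule ℂ (ℝ → ℂ)) : Prop :=
  (∀ f ∈ V, ∀ᵐ x : ℝ, 0 ≤ x → f x = 0) ∨
    ∃ a : ℝ, 0 ≤ a ∧
      ∀ f : ℝ → ℂ, f ∈ V ↔ InL1 w f ∧ ∀ᵐ x : ℝ, 0 ≤ x → x < a → f x = 0

/-- Let `w` be positive on `[0,∞)`, with `log w` concave and `log w(x)/x → -∞`.  For a closed
linear subspace of `L¹(w, ℝ⁺)` the following are equivalent: it is an ideal; it is invariant
under right translations; it is standard. -/
theorem result (w : ℝ → ℝ) (hw : ∀ x, 0 ≤ x → 0 < w x)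
    (hconc : ConcaveOn ℝ (Set.Ici 0) (fun x => Real.log (w x)))
    (hlim : Tendsto (fun x => Real.log (w x) / x) atTop atBot)
    (V : Submodule ℂ (ℝ → ℂ)) (hV : IsClosedSubspace w V) :
    (IsIdeal w V ↔ IsStandard w V) ∧ (IsTranslationInvariant V ↔ IsStandard w V) :=
  ⟨⟨fun h => MP_c588fa_ins.forward hw hconc hlim hV.1 hV.2 (Or.inl h),
      fun h => (MP_c588fa_ins.backward hw hconc hlim hV.1 hV.2 h).1⟩,
    ⟨fun h => MP_c588fa_ins.forward hw hconc hlim hV.1 hV.2 (Or.inr h),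
      fun h => (MP_c588fa_ins.backward hw hconc hlim hV.1 hV.2 h).2⟩⟩

end Pool.Agent.Results.MP_c588fa_an.ClosedIdeals
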